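import Pool.Agent.N987.ZQ.Q8F
import Pool.Agent.N287.ZM.Blk

/-!
# Powers of `Q8` in `SL_n(R)`
-/

set_option autoImplicit false

namespace Pool.Agent.N987.ZQ

open Module Pool.Agent.H185.ZM Pool.Agent.N287.ZM Matrix

section quat

variable {G : Type} [Group G]

/-- the homomorphism from `Q8` given by two elements -/
def qf (A B : G) : Q8 → G
  | QuaternionGroup.a i => A ^ i.val
  | QuaternionGroup.xa i => B * A ^ i.val

lemma pow_val {A : G} (hA : A ^ 4 = 1) (m : ℕ) (i : ZMod 4) (h : (m : ZMod 4) = i) :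
    A ^ i.val = A ^ m := by
  rw [← h, ZMod.val_natCast]
  conv_rhs => rw [← Nat.div_add_mod m 4, pow_add, pow_mul, hA, one_pow, one_mul]

lemma swap_pow {A B : G} (hA : A ^ 4 = 1) (hAB : A * B = B * A ^ 3) (m : ℕ) :
    A ^ m * B = B * A ^ (3 * m) := by
  induction m with
  | zero => simp
  | succ m ih =>
    rw [pow_succ, mul_assoc, hAB, ← mul_assoc, ih, mul_assoc, ← pow_add]
    congr 2

/-- the homomorphism from `Q8` given by two elements -/
def qh (A B : G) (hA : A ^ 4 = 1) (hAB : A * B = B * A ^ 3) (hB : B * B = A ^ 2) : Q8 →* G where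
  toFun := qf A B
  map_one' := by
    show A ^ (0 : ZMod 4).val = 1
    simp
  map_mul' := by
    rintro (i | i) (j | j)
    · rw [QuaternionGroup.a_mul_a]
      show A ^ (i + j).val = A ^ i.val * A ^ j.val
      rw [← pow_add]
      apply pow_val hA
      push_cast
      rw [ZMod.natCast_zmod_val, ZMod.natCast_zmod_val]
    · rw [QuaternionGroup.a_mul_xa]
      show B * A ^ (j - i).val = A ^ i.val * (B * A ^ j.val)
      rw [← mul_assoc, swap_pow hA hAB, mul_assoc, ← pow_add]
      congr 1
      apply pow_val hA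
      push_cast
      rw [ZMod.natCast_zmod_val, ZMod.natCast_zmod_val]
      have h4 : (4 : ZMod 4) = 0 := by decide
      linear_combination i * h4
    · rw [QuaternionGroup.xa_mul_a]
      show B * A ^ (i + j).val = B * A ^ i.val * A ^ j.val
      rw [mul_assoc, ← pow_add]
      congr 1
      apply pow_val hA
      push_cast
      rw [ZMod.natCast_zmod_val, ZMod.natCast_zmod_val]
    · rw [QuaternionGroup.xa_mul_xa]
      show A ^ ((2 : ℕ) + j - i : ZMod 4).val = B * A ^ i.val * (B * A ^ j.val)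
      have h1 : B * A ^ i.val * (B * A ^ j.val) = B * (A ^ i.val * B) * A ^ j.val := by group
      rw [h1, swap_pow hA hAB, ← mul_assoc, hB, ← pow_add, ← pow_add]
      apply pow_val hA
      push_cast
      rw [ZMod.natCast_zmod_val, ZMod.natCast_zmod_val]
      have h4 : (4 : ZMod 4) = 0 := by decide
      linear_combination i * h4

lemma qh_z (A B : G) (hA : A ^ 4 = 1) (hAB : A * B = B * A ^ 3) (hB : B * B = A ^ 2) :
    qh A B hA hAB hB (QuaternionGroup.a 2) = A ^ 2 := rfl

end quat

variable {R : Type} [CommRing R]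

lemma p4 {G : Type} [Group G] (g : G) : g ^ 4 = (g * g) * (g * g) := by
  rw [pow_succ, pow_succ, pow_two]; simp only [mul_assoc]
lemma p3 {G : Type} [Group G] (g : G) : g ^ 3 = g * (g * g) := by
  rw [pow_succ, pow_two]; simp only [mul_assoc]

/-- if `-1` is the sum of two squares then `SL_2(R)` contains the quaternion group -/
theorem exists_quat (x y : R) (h : x * x + y * y = -1) :
    ∃ u : Q8 →* Matrix.SpecialLinearGroup (Fin 2) R,
      (u q8z : Matrix (Fin 2) (Fin 2) R) = -1 := by
  let A : Matrix.SpecialLinearGroup (Fin 2) R := ⟨!![0, 1; -1, 0], by simp [Matrix.det_fin_two]⟩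
  let B : Matrix.SpecialLinearGroup (Fin 2) R := ⟨!![x, y; y, -x], by
    rw [Matrix.det_fin_two]
    show x * -x - y * y = 1
    linear_combination (-1 : R) * h⟩
  have hA2 : ((A * A : Matrix.SpecialLinearGroup (Fin 2) R) : Matrix (Fin 2) (Fin 2) R) = -1 := by
    rw [Matrix.SpecialLinearGroup.coe_mul]
    ext i j
    fin_cases i <;> fin_cases j <;> simp [A, Matrix.mul_apply, Fin.sum_univ_two]
  have hB2 : ((B * B : Matrix.SpecialLinearGroup (Fin 2) R) : Matrix (Fin 2) (Fin 2) R) = -1 := by
    rw [Matrix.SpecialLinearGroup.coe_mul]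
    ext i j
    fin_cases i <;> fin_cases j <;> simp [B, Matrix.mul_apply, Fin.sum_univ_two]
    · exact h
    · ring
    · ring
    · linear_combination h
  have hA4 : A ^ 4 = 1 := by
    apply Subtype.ext
    have h1 : A ^ 4 = (A * A) * (A * A) := p4 A
    rw [h1, Matrix.SpecialLinearGroup.coe_mul, hA2]
    simp
  have hBB : B * B = A ^ 2 := by
    apply Subtype.ext
    rw [hB2, pow_two, hA2]
  have hAB : A * B = B * A ^ 3 := by
    have h1 : A ^ 3 = A * (A * A) := p3 A
    apply Subtype.ext
    rw [h1, Matrix.SpecialLinearGroup.coe_mul, Matrix.SpecialLinearGroup.coe_mul,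
      Matrix.SpecialLinearGroup.coe_mul A, hA2]
    ext i j
    fin_cases i <;> fin_cases j <;> simp [A, B, Matrix.mul_apply, Fin.sum_univ_two]
  refine ⟨qh A B hA4 hAB hBB, ?_⟩
  show ((qh A B hA4 hAB hBB (QuaternionGroup.a 2) : Matrix.SpecialLinearGroup (Fin 2) R) :
    Matrix (Fin 2) (Fin 2) R) = -1
  rw [qh_z, pow_two, hA2]

section block

variable {n j : ℕ}

/-- an enumeration of the coordinates -/
noncomputable def en (h : 2 * j ≤ n) : (Fin 2 × Fin j) ⊕ Fin (n - 2 * j) ≃ Fin n :=
  (Fintype.equivFinOfCardEq (by simp; omega))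

/-- the block matrix -/
def bm (u : Q8 →* Matrix.SpecialLinearGroup (Fin 2) R) (r : ℕ) (q : PQ j) :
    Matrix ((Fin 2 × Fin j) ⊕ Fin r) ((Fin 2 × Fin j) ⊕ Fin r) R :=
  fromBlocks (blockDiagonal fun i => (u (q i) : Matrix (Fin 2) (Fin 2) R)) 0 0 1

lemma bm_mul (u : Q8 →* Matrix.SpecialLinearGroup (Fin 2) R) (r : ℕ) (q p : PQ j) :
    bm u r (q * p) = bm u r q * bm u r p := by
  unfold bm
  rw [fromBlocks_multiply]
  simp only [Matrix.mul_zero, Matrix.zero_mul, add_zero, zero_add, Matrix.mul_one]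
  rw [← blockDiagonal_mul]
  congr 2
  funext i
  rw [Pi.mul_apply, map_mul, Matrix.SpecialLinearGroup.coe_mul]

lemma bm_one (u : Q8 →* Matrix.SpecialLinearGroup (Fin 2) R) (r : ℕ) :
    bm u r (1 : PQ j) = 1 := by
  unfold bm
  have h1 : (fun i : Fin j => (u ((1 : PQ j) i) : Matrix (Fin 2) (Fin 2) R)) = 1 := by
    funext i
    rw [Pi.one_apply, map_one, Matrix.SpecialLinearGroup.coe_one]
    rfl
  rw [h1, blockDiagonal_one, fromBlocks_one]

lemma bm_det (u : Q8 →* Matrix.SpecialLinearGroup (Fin 2) R) (r : ℕ) (q : PQ j) :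
    (bm u r q).det = 1 := by
  unfold bm
  rw [det_fromBlocks_zero₂₁, det_blockDiagonal, det_one, mul_one]
  exact Finset.prod_eq_one fun i _ => (u (q i)).2

/-- the embedding of the power of `Q8` in `SL_n(R)` -/
noncomputable def emb (h : 2 * j ≤ n) (u : Q8 →* Matrix.SpecialLinearGroup (Fin 2) R) :
    PQ j →* Matrix.SpecialLinearGroup (Fin n) R where
  toFun q := ⟨(bm u (n - 2 * j) q).submatrix (en h).symm (en h).symm, by
    rw [det_submatrix_equiv_self, bm_det]⟩
  map_one' := Subtype.ext (by
    show (bm u (n - 2 * j) 1).submatrix (en h).symm (en h).symm = 1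
    rw [bm_one, submatrix_one_equiv])
  map_mul' q p := Subtype.ext (by
    show (bm u (n - 2 * j) (q * p)).submatrix (en h).symm (en h).symm =
      (bm u (n - 2 * j) q).submatrix (en h).symm (en h).symm *
        (bm u (n - 2 * j) p).submatrix (en h).symm (en h).symm
    rw [bm_mul, submatrix_mul_equiv])

/-- the diagonal entries of the images of the elements of order two -/
noncomputable def dg (R : Type) [CommRing R] (h : 2 * j ≤ n) (x : PQ j) (p : Fin n) : R :=
  Sum.elim (fun w => if x w.2 = 1 then 1 else -1) (fun _ => 1) ((en h).symm p)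

lemma emb_diag (h : 2 * j ≤ n) (u : Q8 →* Matrix.SpecialLinearGroup (Fin 2) R)
    (hu : (u q8z : Matrix (Fin 2) (Fin 2) R) = -1) (x : PQ j) (hx : ∀ i, x i = 1 ∨ x i = q8z) :
    (emb h u x : Matrix (Fin n) (Fin n) R) = diagonal (dg R h x) := by
  have hz : q8z ≠ 1 := by decide
  have h1 : bm u (n - 2 * j) x = diagonal (Sum.elim (fun w : Fin 2 × Fin j =>
      if x w.2 = 1 then (1 : R) else -1) (fun _ => 1)) := by
    unfold bm
    rw [← diagonal_one, ← fromBlocks_diagonal]
    congr 1
    ext ⟨a, i⟩ ⟨b, l⟩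
    rw [blockDiagonal_apply, diagonal_apply]
    by_cases hil : i = l
    · subst hil
      rw [if_pos rfl]
      rcases hx i with h2 | h2
      · rw [h2, map_one, Matrix.SpecialLinearGroup.coe_one, one_apply]
        by_cases hab : a = b
        · subst hab; simp [h2]
        · rw [if_neg hab, if_neg (fun h3 => hab (Prod.ext_iff.1 h3).1)]
      · rw [h2, hu, neg_apply, one_apply]
        by_cases hab : a = b
        · subst hab; simp [h2, hz]
        · rw [if_neg hab, if_neg (fun h3 => hab (Prod.ext_iff.1 h3).1), neg_zero]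
    · rw [if_neg hil, if_neg (fun h3 => hil (Prod.ext_iff.1 h3).2)]
  show (bm u (n - 2 * j) x).submatrix (en h).symm (en h).symm = _
  rw [h1, submatrix_diagonal_equiv]
  rfl

end block

end Pool.Agent.N987.ZQ
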