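import Pool.Agent.N987.ZQ.Emb
import Pool.Agent.N287.ZM.GenR

/-!
# `SL_n(R)`, `R` a commutative ring with `Q8` in `SL_2(R)`, acting on closed manifolds
-/

set_option autoImplicit false

namespace Pool.Agent.N987.ZQ

open Module Pool.Agent.H185.ZM Pool.Agent.N287.ZM Matrix
open scoped Manifold ContDiff

variable {E : Type} [NormedAddCommGroup E] [NormedSpace ℝ E] [FiniteDimensional ℝ E]
  {M : Type} [TopologicalSpace M] [ChartedSpace E M] [IsManifold 𝓘(ℝ, E) ∞ M]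

theorem full [CompactSpace M] [T2Space M] [ConnectedSpace M] {Γ : Type} [Group Γ] {j : ℕ}
    (φ : PQ j →* Γ) {a : Γ → M → M} (ha : SmoothAction E a)
    (hdvd : ¬ ((4 : ℤ) ^ j ∣ 2 ^ (finrank ℝ E / 2) * Pool.Agent.Helper381.eulerChar M)) :
    ∃ x : PQ j, x ≠ 1 ∧ (∀ i, x i = 1 ∨ x i = q8z) ∧ φ x ∈ actKer ha := by
  have _ : Subsingleton (Γ ⧸ (⊤ : Subgroup Γ)) := QuotientGroup.subsingleton_quotient_top
  obtain ⟨x, γ, hx, h1, h2, h3⟩ := fi φ (⊤ : Subgroup Γ)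
    (ha.comp (Subgroup.subtype (⊤ : Subgroup Γ))) (by
      rw [Subgroup.index_top, Nat.cast_one, mul_one]
      exact hdvd)
  refine ⟨x, h1, h2, ?_⟩
  have h4 : γ⁻¹ * φ x * γ ∈ actKer ha := h3
  have h5 := (inferInstance : (actKer ha).Normal).conj_mem _ h4 γ
  have h6 : γ * (γ⁻¹ * φ x * γ) * γ⁻¹ = φ x := by group
  rwa [h6] at h5

theorem arith {j T m : ℕ} {χ : ℤ} (hT : 4 * j ≤ T) (h : (2 : ℤ) ^ T ∣ 2 ^ m * χ) :
    (4 : ℤ) ^ j ∣ 2 ^ (m / 2) * χ := by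
  have h4 : (4 : ℤ) ^ j = 2 ^ (2 * j) := by
    rw [show (4 : ℤ) = 2 ^ 2 by norm_num, ← pow_mul]
  rw [h4]
  rcases Nat.lt_or_ge m T with h1 | h1
  · have h2 : (2 : ℤ) ^ T = 2 ^ m * 2 ^ (T - m) := by
      rw [← pow_add]; congr 1; omega
    rw [h2] at h
    have h3 := Int.dvd_of_mul_dvd_mul_left (by positivity) h
    have h5 : (2 : ℤ) ^ (m / 2 + (T - m)) ∣ 2 ^ (m / 2) * χ := by
      rw [pow_add]
      exact mul_dvd_mul_left _ h3
    exact (pow_dvd_pow (2 : ℤ) (by omega)).trans h5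
  · exact (pow_dvd_pow (2 : ℤ) (by omega)).trans (dvd_mul_right _ _)

theorem small_of {j m v : ℕ} {χ : ℤ} (h1 : ¬ ((2 : ℤ) ^ (v + 1) ∣ χ)) (h2 : m + 2 * v < 4 * j) :
    ¬ ((4 : ℤ) ^ j ∣ 2 ^ (m / 2) * χ) := by
  intro h
  apply h1
  have h4 : (4 : ℤ) ^ j = 2 ^ (m / 2) * 2 ^ (2 * j - m / 2) := by
    rw [show (4 : ℤ) = 2 ^ 2 by norm_num, ← pow_mul, ← pow_add]
    congr 1
    omega
  rw [h4] at h
  have h3 := Int.dvd_of_mul_dvd_mul_left (by positivity) h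
  exact (pow_dvd_pow (2 : ℤ) (by omega)).trans h3

variable {R : Type} [CommRing R]

theorem two_mem [CompactSpace M] [T2Space M] [ConnectedSpace M] {n : ℕ} (hn : 3 ≤ n)
    (u : Q8 →* Matrix.SpecialLinearGroup (Fin 2) R)
    (hu : (u q8z : Matrix (Fin 2) (Fin 2) R) = -1)
    {a : Matrix.SpecialLinearGroup (Fin n) R → M → M} (ha : SmoothAction E a)
    (hdvd : ¬ ((4 : ℤ) ^ ((n - 1) / 2) ∣ 2 ^ (finrank ℝ E / 2) *
      Pool.Agent.Helper381.eulerChar M)) :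
    (2 : R) ∈ idealOf (actKer ha) hn := by
  have h : 2 * ((n - 1) / 2) ≤ n := by omega
  obtain ⟨x, hx1, hx2, hx3⟩ := full (emb h u) ha hdvd
  obtain ⟨i, hi⟩ : ∃ i, x i ≠ 1 := by
    by_contra hcon
    push Not at hcon
    exact hx1 (funext hcon)
  let r0 : Fin (n - 2 * ((n - 1) / 2)) := ⟨0, by omega⟩
  let p : Fin n := en h (Sum.inl (0, i))
  let q : Fin n := en h (Sum.inr r0)
  have hpq : p ≠ q := fun hh => by
    have := (en h).injective hh
    simp at this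
  have hp : dg R h x p = -1 := by
    unfold dg
    rw [Equiv.symm_apply_apply]
    show (if x i = 1 then (1 : R) else -1) = -1
    rw [if_neg hi]
  have hq : dg R h x q = 1 := by
    unfold dg
    rw [Equiv.symm_apply_apply]
    rfl
  have h1 := mem_idealOf_diag (actKer ha) hn hpq hx3 (dg R h x) (emb_diag h u hu x hx2) (-1)
    (by rw [hp, hq, mul_one])
  have h2 := Ideal.mul_mem_left _ (-1 : R) h1
  have h3 : (-1 : R) * (-1 - 1) = 2 := by ring
  rwa [h3] at h2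

/-- the elementary subgroup acts trivially if all elementary matrices do -/
lemma triv_of {n : ℕ}
    {α : Matrix.SpecialLinearGroup (Fin n) R → (M ≃ₘ^∞⟮𝓘(ℝ, E), 𝓘(ℝ, E)⟯ M)} (hα : IsHom α)
    (h : ∀ (i j : Fin n) (hij : i ≠ j) (c : R) (x : M), α (el hij c) x = x) :
    ∀ g ∈ EE n R, ∀ x, α g x = x := by
  have h1 : EE n R ≤ actKer hα.action := by
    unfold EE
    rw [Subgroup.closure_le]
    rintro _ ⟨i, j, hij, c, rfl⟩
    exact fun x => h i j hij c x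
  intro g hg
  exact h1 hg

lemma block_arith {n : ℕ} (h : n = 4 ∨ 6 ≤ n) : 4 * ((n - 1) / 2) ≤ (n / 2) * (n - n / 2) := by
  rcases h with rfl | h
  · norm_num
  · obtain ⟨b, hb⟩ : ∃ b, b = n - n / 2 := ⟨_, rfl⟩
    obtain ⟨a, ha⟩ : ∃ a, a = n / 2 := ⟨_, rfl⟩
    rw [← hb, ← ha]
    have h1 : 3 ≤ a := by omega
    rcases Nat.even_or_odd n with ⟨t, ht⟩ | ⟨t, ht⟩
    · have ha' : a = t := by omega
      have hb' : b = t := by omega
      have h3 : (n - 1) / 2 = t - 1 := by omega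
      rw [h3, ha', hb']
      obtain ⟨s, rfl⟩ : ∃ s, t = s + 3 := ⟨t - 3, by omega⟩
      have : s + 3 - 1 = s + 2 := by omega
      rw [this]
      nlinarith
    · have ha' : a = t := by omega
      have hb' : b = t + 1 := by omega
      have h3 : (n - 1) / 2 = t := by omega
      rw [h3, ha', hb']
      obtain ⟨s, rfl⟩ : ∃ s, t = s + 3 := ⟨t - 3, by omega⟩
      nlinarith

/-- **Special linear groups over rings with `Q8` in `SL_2(R)`.** -/
theorem main [CompactSpace M] [T2Space M] [ConnectedSpace M] {n : ℕ} (hn : 3 ≤ n)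
    (u : Q8 →* Matrix.SpecialLinearGroup (Fin 2) R)
    (hu : (u q8z : Matrix (Fin 2) (Fin 2) R) = -1)
    (α : Matrix.SpecialLinearGroup (Fin n) R → (M ≃ₘ^∞⟮𝓘(ℝ, E), 𝓘(ℝ, E)⟯ M)) (hα : IsHom α)
    (hdvd : ¬ ((4 : ℤ) ^ ((n - 1) / 2) ∣ 2 ^ (finrank ℝ E / 2) *
      Pool.Agent.Helper381.eulerChar M)) :
    (∃ I : Ideal R, (2 : R) ∈ I ∧ (∀ c, c ∈ I ∨ c - 1 ∈ I) ∧
      ∀ c ∈ I, ∀ (i j : Fin n) (hij : i ≠ j) (x : M), α (el hij c) x = x) ∧
    (α '' {g | g ∈ EE n R}).Finite ∧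
    (n = 4 ∨ 6 ≤ n → ∀ g ∈ EE n R, ∀ x, α g x = x) := by
  obtain ⟨k, rfl⟩ : ∃ k, n = k + 1 := ⟨n - 1, by omega⟩
  have hk : 2 ≤ k := by omega
  have h2 := two_mem hn u hu hα.action hdvd
  have h1 := index_two hk hα.action h2 (fun h3 => hdvd (arith (T := 2 * k) (by omega) (by
    rwa [show (4 : ℤ) = 2 ^ 2 by norm_num, ← pow_mul] at h3)))
  refine ⟨⟨idealOf (actKer hα.action) hn, h2, h1, fun c hc i j hij x => hc i j hij x⟩, ?_, ?_⟩
  · have hfin := finite_EE hn (actKer hα.action) h2 h1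
    let β : (Matrix.SpecialLinearGroup (Fin (k + 1)) R ⧸ actKer hα.action) →
      (M ≃ₘ^∞⟮𝓘(ℝ, E), 𝓘(ℝ, E)⟯ M) := fun p => α p.out
    refine (hfin.image β).subset ?_
    rintro _ ⟨g, hg, rfl⟩
    refine ⟨(g : _ ⧸ actKer hα.action), ⟨g, hg, rfl⟩, ?_⟩
    obtain ⟨w, hw⟩ := QuotientGroup.mk_out_eq_mul (actKer hα.action) g
    show α _ = α g
    rw [hw]
    ext x
    rw [hα]
    exact congrArg (α g) (w.2 x)
  · intro hk7
    apply triv_of hα
    intro i j hij c x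
    have h3 := one_mem hn (c := (k + 1) / 2) (by omega) (by omega) hα.action h2
      (fun h4 => hdvd (arith (block_arith hk7) h4))
    have h4 : c ∈ idealOf (actKer hα.action) hn := by
      have := Ideal.mul_mem_left _ c h3
      rwa [mul_one] at this
    exact h4 i j hij x

end Pool.Agent.N987.ZQ
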