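import Pool.Agent.H185.ZM.FI8

/-!
# Powers of the quaternion group of order eight: actions whose kernel contains no involution
-/

set_option autoImplicit false

namespace Pool.Agent.N987.ZQ

open Module Pool.Agent.H185.ZM
open scoped Manifold ContDiff

/-- the linear bound for injective representations -/
theorem card_le_inj {n : ℕ} (H : Subgroup (PQ n)) {V : Type} [AddCommGroup V] [Module ℝ V]
    [FiniteDimensional ℝ V] (ρ : H →* (V →ₗ[ℝ] V)) (hker : ∀ h : H, ρ h = 1 → h = 1) :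
    Nat.card H ≤ 2 ^ (n + finrank ℝ V / 2) := by
  classical
  obtain ⟨t, b, G', B', h1, h2, h3, h4, h5⟩ := struct (G := H) _ V (CQ H) (sqC H) ρ rfl
  have hk0 : ρ.ker = ⊥ := by
    rw [eq_bot_iff]
    intro h hh
    exact hker h hh
  have hB' : Nat.card B' ≤ 2 ^ b := by
    rwa [hk0, Subgroup.relIndex_bot_left] at h4
  have hG' := card_of_sq G' B' h3
  have hH : Nat.card H = Nat.card G' * G'.index := (Subgroup.card_mul_index _).symm
  calc Nat.card H = Nat.card G' * G'.index := hH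
    _ ≤ (2 ^ n * (2 ^ b) ^ 2) * 2 ^ t :=
        Nat.mul_le_mul (hG'.trans (Nat.mul_le_mul_left _ (Nat.pow_le_pow_left hB' 2))) h1
    _ = 2 ^ (n + (2 * b + t)) := by
        rw [← pow_mul, ← pow_add, ← pow_add]
        congr 1
        ring
    _ ≤ 2 ^ (n + finrank ℝ V / 2) := Nat.pow_le_pow_right (by norm_num) (by omega)

variable {E : Type} [NormedAddCommGroup E] [NormedSpace ℝ E] [FiniteDimensional ℝ E]
  {M : Type} [TopologicalSpace M] [ChartedSpace E M] [IsManifold 𝓘(ℝ, E) ∞ M]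

/-- **Faithful actions of subgroups of powers of `Q8`.** -/
theorem dvd_faithful [CompactSpace M] [T2Space M] [ConnectedSpace M] {n : ℕ}
    (H : Subgroup (PQ n)) {a : H → M → M} (ha : SmoothAction E a)
    (hker : ∀ p : H, (∀ y, a p y = y) → p = 1) :
    (Nat.card H : ℤ) ∣ 2 ^ (n + finrank ℝ E / 2) * Pool.Agent.Helper381.eulerChar M := by
  classical
  have hp2 : Fact (Nat.Prime 2) := ⟨Nat.prime_two⟩
  have hH2 : IsPGroup 2 H := (isPGroup_Q8 n).to_subgroup H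
  have h1 := smooth_dvd_euler ha (2 ^ (n + finrank ℝ E / 2)) (fun x Q hQ => by
    obtain ⟨V, _, _, _, ρ, hV, hρ⟩ := exists_isotropy ha hker x Q hQ
    let e : Q ≃* Q.map H.subtype := Q.equivMapOfInjective H.subtype H.subtype_injective
    have h2 := card_le_inj (Q.map H.subtype) (ρ.comp e.symm.toMonoidHom) (fun h hh => by
      have h3 : e.symm h = 1 := hρ (by rw [map_one]; exact hh)
      rw [← e.apply_symm_apply h, h3, map_one])
    rw [← Nat.card_congr e.toEquiv] at h2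
    obtain ⟨q, hq⟩ := IsPGroup.iff_card.1 (hH2.to_subgroup Q)
    rw [hV, hq] at h2
    rw [hq]
    exact Nat.pow_dvd_pow 2 ((Nat.pow_le_pow_iff_right (by norm_num)).1 h2))
  exact_mod_cast h1

lemma sq_entries {n : ℕ} (x : PQ n) (i : Fin n) : (x * x) i = 1 ∨ (x * x) i = q8z := q8_sq (x i)

/-- groups of finite index in a group containing a power of `Q8` -/
theorem fi {Γ : Type} [Group Γ] {n : ℕ} (φ : PQ n →* Γ) (Γ' : Subgroup Γ) [Finite (Γ ⧸ Γ')]
    [CompactSpace M] [T2Space M] [ConnectedSpace M]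
    {a : Γ' → M → M} (ha : SmoothAction E a)
    (hdvd : ¬ ((4 : ℤ) ^ n ∣ 2 ^ (finrank ℝ E / 2) *
      Pool.Agent.Helper381.eulerChar M * Γ'.index)) :
    ∃ (x : PQ n) (γ : Γ) (hx : γ⁻¹ * φ x * γ ∈ Γ'), x ≠ 1 ∧ (∀ i, x i = 1 ∨ x i = q8z) ∧
      (⟨_, hx⟩ : Γ') ∈ actKer ha := by
  by_contra hcon
  push Not at hcon
  -- no element at all
  have hcon' : ∀ (x : PQ n) (γ : Γ) (hx : γ⁻¹ * φ x * γ ∈ Γ'), x ≠ 1 →
      (⟨_, hx⟩ : Γ') ∉ actKer ha := by
    intro x γ hx hx1 hmem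
    by_cases hxx : x * x = 1
    · refine hcon x γ hx hx1 (fun i => ?_) hmem
      exact q8_one _ (congrFun hxx i)
    · have h3 : γ⁻¹ * φ (x * x) * γ = (γ⁻¹ * φ x * γ) * (γ⁻¹ * φ x * γ) := by
        rw [map_mul]; group
      have hx2 : γ⁻¹ * φ (x * x) * γ ∈ Γ' := by
        rw [h3]; exact Γ'.mul_mem hx hx
      refine hcon (x * x) γ hx2 hxx (sq_entries x) ?_
      have h4 : (⟨γ⁻¹ * φ (x * x) * γ, hx2⟩ : Γ') = ⟨γ⁻¹ * φ x * γ, hx⟩ * ⟨γ⁻¹ * φ x * γ, hx⟩ :=
        Subtype.ext h3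
      rw [h4]
      exact (actKer ha).mul_mem hmem hmem
  apply hdvd
  have h1 := fi_dvd Γ' φ (Int.natAbs (2 ^ (n + finrank ℝ E / 2) *
      Pool.Agent.Helper381.eulerChar M)) (fun γ Q hQ => by
    have h2 := dvd_faithful Q (ha.comp (cj Γ' φ γ Q hQ)) (fun p hp => by
      by_contra hcc
      exact hcon' p γ (hQ p p.2) (fun h => hcc (Subtype.ext h)) hp)
    have h6 := Int.natAbs_dvd_natAbs.2 h2
    rwa [Int.natAbs_natCast] at h6)
  have hcardP : Nat.card (PQ n) = 2 ^ (3 * n) := by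
    rw [Nat.card_fun, Nat.card_eq_fintype_card (α := Q8), Nat.card_eq_fintype_card (α := Fin n),
      Fintype.card_fin]
    have : Fintype.card Q8 = 2 ^ 3 := by decide
    rw [this, pow_mul]
  rw [hcardP] at h1
  have h2 : ((2 ^ (3 * n) : ℕ) : ℤ) ∣ ((Int.natAbs (2 ^ (n + finrank ℝ E / 2) *
      Pool.Agent.Helper381.eulerChar M) * Γ'.index : ℕ) : ℤ) :=
    Int.natCast_dvd_natCast.2 h1
  have h3 : ((Int.natAbs (2 ^ (n + finrank ℝ E / 2) *
      Pool.Agent.Helper381.eulerChar M) * Γ'.index : ℕ) : ℤ) ∣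
      2 ^ (n + finrank ℝ E / 2) * Pool.Agent.Helper381.eulerChar M * Γ'.index := by
    rw [Nat.cast_mul]
    exact mul_dvd_mul_right (Int.natAbs_dvd.2 dvd_rfl) _
  have h4 := h2.trans h3
  have h5 : ((2 ^ (3 * n) : ℕ) : ℤ) = 2 ^ n * 4 ^ n := by
    push_cast
    rw [show (4 : ℤ) = 2 ^ 2 by norm_num, ← pow_mul, ← pow_add]
    congr 1
    ring
  have h6 : (2 : ℤ) ^ (n + finrank ℝ E / 2) * Pool.Agent.Helper381.eulerChar M * Γ'.index =
      2 ^ n * (2 ^ (finrank ℝ E / 2) * Pool.Agent.Helper381.eulerChar M * Γ'.index) := by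
    rw [pow_add]; ring
  rw [h5, h6] at h4
  exact Int.dvd_of_mul_dvd_mul_left (by positivity) h4

end Pool.Agent.N987.ZQ
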